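import Pool.Agent.helper58.FI4E.Spec
set_option autoImplicit false
namespace Pool.Agent.FI4E
open Pool.Agent.helper58.DC Pool.Agent.DI Pool.Agent.GR Pool.Agent.OB Pool.Agent.DR Pool.Agent.FI Pool.Agent.FI3 Pool.Agent.FI4 Pool.Agent.FI4I

theorem TRE_van {G : Type} [Group G] {N H : Subgroup G} (hH : H ≤ N) {ψ : G → ℂ} (hψ : ψ ∈ IrrOn H) :
    ∀ x, x ∉ N → ψ x = 0 := fun x hx => hψ.1 x (fun h => hx (hH h))

theorem TRE (hTRA : TRA_stmt) (hTR1 : TR1_stmt) (hTR2 : TR2_stmt) (hTR4 : TR4_stmt) (hTPR : Pool.Agent.FI.TPR_stmt) :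
    TRE_stmt := by
  intro p M hM G _ _ N φ hφ α β hR
  obtain ⟨-, hT2, -, -, -⟩ := hTPR p M hM N
  obtain ⟨hA1, -, hA3, -⟩ := (hTRA G N α).2 β hR
  have hφv : ∀ x, x ∉ N → φ x = 0 := hφ.1
  have hNN : N.subgroupOf N = ⊤ := Subgroup.subgroupOf_self N
  have key : ∀ ζ : G → ℂ, (∀ x, x ∉ N → ζ x = 0) → (Induces M (rN N ζ) (rN N φ) ↔ SB M N ζ φ) := by
    intro ζ hζ
    rw [hT2, (hTR2 G M N).2.1 N le_rfl ζ φ hζ hφv, hNN]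
  have h1 : ∀ H : Subgroup G, H ≤ N → tL p M (rN N φ) (H.subgroupOf N) β = tS p H (Bq M N H φ) α := by
    intro H hH
    obtain ⟨a1, a2, a3⟩ := hTR1 G N H hH
    unfold tL tS
    symm
    refine finsum_mem_eq_of_bijOn (rN N) ⟨?_, ?_, ?_⟩ ?_
    · rintro ζ ⟨hζ, hs⟩
      exact ⟨(a1 ζ (TRE_van hH hζ)).1 hζ, (key ζ (TRE_van hH hζ)).2 hs⟩
    · rintro ζ ⟨hζ, -⟩ ζ' ⟨hζ', -⟩ he
      exact a3 ζ ζ' (TRE_van hH hζ) (TRE_van hH hζ') he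
    · rintro ζ' ⟨hζ', hi⟩
      obtain ⟨ζ, hζ, rfl⟩ := a2 ζ' hζ'
      exact ⟨ζ, ⟨hζ, (key ζ (TRE_van hH hζ)).1 hi⟩, rfl⟩
    · rintro ζ ⟨hζ, -⟩
      rw [hA3]
      exact ((hTR4 p G N H hH (funMap α ζ) ζ).1).symm
  refine ⟨h1, ?_, ?_⟩
  · rw [← h1 N le_rfl, hNN]
  · have hv : ∀ x, x ∉ N → funMap α φ x = 0 := by
      intro x hx
      refine hφv _ (fun h => hx ?_)
      rw [← hA1, mem_am]
      exact h
    unfold Stb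
    rw [hA3]
    exact key _ hv

end Pool.Agent.FI4E
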