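import Pool.Agent.helper70.FI4E.SpecK

/-!
# Project fi4e (MP_baa4d7_al), row `fi4e:EUN`: sum over several blocks
-/

set_option autoImplicit false

namespace Pool.Agent.FI4E

open Pool.Agent.helper58.DC Pool.Agent.DI Pool.Agent.GR Pool.Agent.OB Pool.Agent.DR Pool.Agent.FI Pool.Agent.FI3 Pool.Agent.FI4

theorem EUN (hUNS : UNS_stmt) (hEAU : EAU_stmt) (hIM : IM_stmt) (hB2 : B2_stmt) : EUN_stmt := by
  intro p M hM G _ _ X hX hcl α n hdiv
  have : Fact p.Prime := ⟨hM.pr⟩
  have hrefl : ∀ ψ : G → ℂ, Induces M ψ ψ := fun ψ => (hIM G M ψ ψ ψ).1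
  have hsymm : ∀ ψ φ : G → ℂ, Induces M ψ φ → Induces M φ ψ := fun ψ φ => (hIM G M ψ φ ψ).2.1
  have htrans : ∀ ψ φ θ : G → ℂ, Induces M ψ φ → Induces M φ θ → Induces M ψ θ :=
    fun ψ φ θ => (hIM G M ψ φ θ).2.2.1
  have hIrr : (Irr G).Finite := by
    refine (hB2 G (⊤ : Subgroup G)).1.subset ?_
    intro χ hχ
    exact IrrOn_top.2 hχ
  obtain ⟨hE1, -, hE3⟩ := hEAU p M G α
  have key : ∀ k : ℕ, ∀ X : Set (G → ℂ), X ⊆ Irr G → X.ncard = k →
      (∀ χ' ∈ X, ∀ χ'' ∈ Irr G, Induces M χ'' χ' → χ'' ∈ X) →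
      (∀ χ' ∈ X, Stb M χ' α → ∃ m : ℤ, Om p M χ' ⊥ α = (n : ℂ) * m) →
      ∃ m : ℤ, OmX p M X α = (n : ℂ) * m := by
    intro k
    induction k using Nat.strong_induction_on with
    | _ k ih =>
      intro X hX hk hcl hdiv
      rcases X.eq_empty_or_nonempty with hX0 | ⟨χ₀, hχ₀⟩
      · refine ⟨0, ?_⟩
        have h0 : ∀ (N : Subgroup G) (β : MulAut G), tS p N (BX M X N) β = 0 := by
          intro N β
          have h1 : BX M X N = ∅ := by
            ext f
            constructor
            · rintro ⟨-, χ', hχ', -⟩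
              rw [hX0] at hχ'
              exact hχ'.elim
            · intro h
              exact h.elim
          rw [h1]
          unfold tS
          exact finsum_mem_empty
        unfold OmX
        have h2 : ∀ g : G, ∑ᶠ C ∈ {C : Finset (Subgroup G) | NCh p ⊤ ⊥ C ∧ FxC (al α g) C},
            (-1 : ℂ) ^ (C.card + 1) * tS p (nrm C) (BX M X (nrm C)) (al α g) = 0 := by
          intro g
          refine finsum_mem_eq_zero_of_forall_eq_zero fun C _ => ?_
          rw [h0, mul_zero]
        rw [finsum_congr h2, finsum_zero]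
        simp
      · obtain ⟨X', hX'⟩ : ∃ X' : Set (G → ℂ), X' = {χ' | χ' ∈ X ∧ ¬ Induces M χ' χ₀} := ⟨_, rfl⟩
        have hsub : X' ⊆ X := by
          rw [hX']
          exact fun _ h => h.1
        have hχ₀' : χ₀ ∉ X' := by
          rw [hX']
          exact fun h => h.2 (hrefl χ₀)
        have hlt : X'.ncard < k := by
          rw [← hk]
          refine Set.ncard_lt_ncard ⟨hsub, fun h => hχ₀' (h hχ₀)⟩ (hIrr.subset hX)
        obtain ⟨m', hm'⟩ := ih X'.ncard hlt X' (hsub.trans hX) rfl
          (by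
            intro χ' hχ' χ'' hχ'' hi
            rw [hX'] at hχ' ⊢
            exact ⟨hcl χ' hχ'.1 χ'' hχ'' hi, fun h => hχ'.2 (htrans _ _ _ (hsymm _ _ hi) h)⟩)
          (fun χ' hχ' => hdiv χ' (hsub hχ'))
        have hls : ∀ (N : Subgroup G) (β : MulAut G), tS p N (BX M X N) β = tL p M χ₀ N β + tS p N (BX M X' N) β := by
          intro N β
          have hfin : ∀ Y : Set (G → ℂ), (BX M Y N).Finite := fun Y => (hB2 G N).1.subset fun _ h => h.1
          have hfinB : (Blk M χ₀ N).Finite := (hB2 G N).1.subset fun _ h => h.1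
          have hun : BX M X N = Blk M χ₀ N ∪ BX M X' N := by
            ext f
            constructor
            · rintro ⟨h1, χ', hχ', h2⟩
              by_cases h3 : Induces M χ' χ₀
              · exact Or.inl ⟨h1, htrans _ _ _ h2 h3⟩
              · refine Or.inr ⟨h1, χ', ?_, h2⟩
                rw [hX']
                exact ⟨hχ', h3⟩
            · rintro (⟨h1, h2⟩ | ⟨h1, χ', hχ', h2⟩)
              · exact ⟨h1, χ₀, hχ₀, h2⟩
              · exact ⟨h1, χ', hsub hχ', h2⟩
          have hdis : Disjoint (Blk M χ₀ N) (BX M X' N) := by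
            rw [Set.disjoint_left]
            rintro f ⟨h1, h2⟩ ⟨-, χ', hχ', h3⟩
            rw [hX'] at hχ'
            exact hχ'.2 (htrans _ _ _ (hsymm _ _ h3) h2)
          unfold tL tS
          rw [hun, finsum_mem_union hdis hfinB (hfin X')]
        have hsum : OmX p M X α = Om p M χ₀ ⊥ α + OmX p M X' α := by
          unfold OmX Om
          rw [← finsum_add_distrib (Set.toFinite _) (Set.toFinite _)]
          refine finsum_congr fun g => ?_
          rw [← finsum_mem_add_distrib (Set.toFinite _)]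
          refine finsum_mem_congr rfl fun C _ => ?_
          rw [hls (nrm C)]
          ring
        by_cases hst : Stb M χ₀ α
        · obtain ⟨m, hm⟩ := hdiv χ₀ hχ₀ hst
          refine ⟨m + m', ?_⟩
          rw [hsum, hm, hm']
          push_cast
          ring
        · have hz : Om p M χ₀ ⊥ α = 0 := by
            unfold Om
            have h2 : ∀ g : G, ∑ᶠ C ∈ {C : Finset (Subgroup G) | NCh p ⊤ ⊥ C ∧ FxC (al α g) C},
                (-1 : ℂ) ^ (C.card + 1) * tL p M χ₀ (nrm C) (al α g) = 0 := by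
              intro g
              refine finsum_mem_eq_zero_of_forall_eq_zero fun C hC => ?_
              have h3 : am (al α g) (nrm C) = nrm C := (hEAU p M G (al α g)).1 C hC.2
              have h4 : ¬ Stb M χ₀ (al α g) := fun h => hst ((hE3 χ₀ (hX hχ₀) g).1 h)
              rw [(hUNS p M hM G (al α g) (nrm C) h3).2 χ₀ h4, mul_zero]
            rw [finsum_congr h2, finsum_zero]
          refine ⟨m', ?_⟩
          rw [hsum, hz, zero_add, hm']
  exact key X.ncard X hX rfl hcl hdiv

end Pool.Agent.FI4E
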